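import Pool.Agent.Lib.MP_21db46_co.Final

/-! The h-vector of a Buchsbaum complex does not decrease under any topological subdivision. -/

namespace Pool.Agent.Results.MP_21db46_co.Monotone

open Pool.Agent.Lib.MP_21db46_co

theorem result (k : Type*) [Field k] {V : Type*} [Fintype V] [LinearOrder V]
    {W : Type*} [Fintype W] [LinearOrder W]
    (Δ : Finset (Finset V)) (Δ' : Finset (Finset W)) (σ : Finset W → Finset V)
    (hΔ : IsComplex Δ) (hΔ' : IsComplex Δ') (hB : IsBuchsbaum k Δ)
    (h : IsTopSubdivision Δ Δ' σ) (i : ℕ) :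
    (hPoly Δ).coeff i ≤ (hPoly Δ').coeff i :=
  hPoly_mono k hΔ hΔ' hB h i

end Pool.Agent.Results.MP_21db46_co.Monotone
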